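import Mathlib
import Pool.Agent.H788R2.Trunc3

set_option autoImplicit false

/-!
# Truncated cosine transforms of the Riemann kernel with several pairs of nonreal zeros
-/

namespace Pool.Agent.Results.MP_d99112_an.FourZeros

open MeasureTheory ComplexConjugate

/-- The kernel `Φ` of the problem (the summation index is shifted by one). -/
noncomputable def Phi (t : ℝ) : ℝ :=
  2 * ∑' n : ℕ, (2 * Real.pi ^ 2 * ((n : ℝ) + 1) ^ 4 * Real.exp (9 * t / 2)
    - 3 * Real.pi * ((n : ℝ) + 1) ^ 2 * Real.exp (5 * t / 2)) *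
      Real.exp (-(Real.pi * ((n : ℝ) + 1) ^ 2 * Real.exp (2 * t)))

/-- `F_R z = ∫_0^R Φ(x) cos (z x) dx`. -/
noncomputable def F (R : ℝ) (z : ℂ) : ℂ :=
  ∫ x in (0 : ℝ)..R, ((Phi x : ℝ) : ℂ) * Complex.cos (z * x)

/-- the kernel in the variable `x = 2 u` -/
lemma Phi_two (u : ℝ) : Phi (2 * u) = 2 * Pool.Agent.Helper242.RK.Phi u := by
  unfold Phi Pool.Agent.Helper242.RK.Phi
  congr 1
  apply tsum_congr
  intro n
  rw [show 9 * (2 * u) / 2 = 9 * u by ring, show 5 * (2 * u) / 2 = 5 * u by ring,
    show 2 * (2 * u) = 4 * u by ring]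
  ring_nf

lemma F_eq (R : ℝ) (z : ℂ) : F R z = 4 * Pool.Agent.H788R2.Trunc.H (R / 2) (2 * z) := by
  unfold F
  have h := intervalIntegral.integral_comp_mul_left (a := 0) (b := R / 2) (c := 2)
    (fun x : ℝ => ((Phi x : ℝ) : ℂ) * Complex.cos (z * x)) two_ne_zero
  rw [mul_zero, mul_div_cancel₀ R two_ne_zero] at h
  have h2 : ∫ x in (0 : ℝ)..R, ((Phi x : ℝ) : ℂ) * Complex.cos (z * x) =
      (2 : ℝ) • ∫ x in (0 : ℝ)..(R / 2), ((Phi (2 * x) : ℝ) : ℂ) * Complex.cos (z * (2 * x : ℝ)) := by
    rw [h, smul_smul]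
    norm_num
  rw [h2]
  unfold Pool.Agent.H788R2.Trunc.H
  have h3 : ∫ x in (0 : ℝ)..(R / 2), ((Phi (2 * x) : ℝ) : ℂ) * Complex.cos (z * (2 * x : ℝ)) =
      ∫ x in (0 : ℝ)..(R / 2), (2 : ℂ) *
        (((Pool.Agent.Helper242.RK.Phi x : ℝ) : ℂ) * Complex.cos (2 * z * x)) := by
    congr 1
    funext x
    rw [Phi_two]
    push_cast
    rw [show z * (2 * (x : ℂ)) = 2 * z * x by ring]
    ring
  rw [h3, intervalIntegral.integral_const_mul, Complex.real_smul]
  push_cast
  ring

lemma F_neg (R : ℝ) (z : ℂ) : F R (-z) = F R z := by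
  unfold F
  simp only [neg_mul, Complex.cos_neg]

lemma F_conj (R : ℝ) (z : ℂ) : F R (conj z) = conj (F R z) := by
  unfold F
  rw [← intervalIntegral.intervalIntegral_conj]
  congr 1
  funext x
  simp only [map_mul, Complex.conj_ofReal]
  rw [← Complex.cos_conj, map_mul, Complex.conj_ofReal]

lemma F_imag_ne (R : ℝ) (hR : 0 < R) (y : ℝ) : F R (y * Complex.I) ≠ 0 := by
  unfold F
  have hPhi : ∀ t : ℝ, Phi t = 2 * Pool.Agent.Helper242.RK.Phi (t / 2) := by
    intro t
    rw [← Phi_two, mul_div_cancel₀ t two_ne_zero]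
  have h1 : ∫ x in (0 : ℝ)..R, ((Phi x : ℝ) : ℂ) * Complex.cos (y * Complex.I * x) =
      ((∫ x in (0 : ℝ)..R, Phi x * Real.cosh (y * x) : ℝ) : ℂ) := by
    rw [← intervalIntegral.integral_ofReal]
    congr 1
    funext x
    push_cast
    rw [show (y : ℂ) * Complex.I * x = (y * x : ℂ) * Complex.I by ring, Complex.cos_mul_I]
  rw [h1]
  have hcont : Continuous fun x : ℝ => Phi x * Real.cosh (y * x) := by
    have hc : Continuous Phi := by
      have : Phi = fun t => 2 * Pool.Agent.Helper242.RK.Phi (t / 2) := funext hPhi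
      rw [this]
      exact continuous_const.mul
        (Pool.Agent.Helper242.RK.continuous_Phi.comp (continuous_id.div_const 2))
    exact hc.mul (Real.continuous_cosh.comp (continuous_const.mul continuous_id))
  have hpos : 0 < ∫ x in (0 : ℝ)..R, Phi x * Real.cosh (y * x) := by
    apply intervalIntegral.intervalIntegral_pos_of_pos_on (hcont.intervalIntegrable _ _) _ hR
    intro x _
    have := Pool.Agent.Helper242.RK.Phi_pos (x / 2)
    rw [hPhi]
    have h2 := Real.cosh_pos (y * x)
    positivity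
  exact_mod_cast hpos.ne'

/-- Sanity: `Φ` is given by a convergent series, is continuous and positive, and `F_R` is entire. -/
lemma sanity : (∀ t : ℝ, Summable fun n : ℕ =>
    (2 * Real.pi ^ 2 * ((n : ℝ) + 1) ^ 4 * Real.exp (9 * t / 2)
    - 3 * Real.pi * ((n : ℝ) + 1) ^ 2 * Real.exp (5 * t / 2)) *
      Real.exp (-(Real.pi * ((n : ℝ) + 1) ^ 2 * Real.exp (2 * t)))) ∧
    (∀ R : ℝ, Differentiable ℂ (F R)) := by
  constructor
  · intro t
    refine (Pool.Agent.Helper242.RK.summable_Phi (t / 2)).congr (fun n => ?_)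
    rw [show 9 * (t / 2) = 9 * t / 2 by ring, show 5 * (t / 2) = 5 * t / 2 by ring,
      show 4 * (t / 2) = 2 * t by ring]
    ring_nf
  · intro R
    have : F R = fun z => 4 * Pool.Agent.H788R2.Trunc.H (R / 2) (2 * z) := funext (F_eq R)
    rw [this]
    exact (differentiable_const _).mul
      ((Pool.Agent.H788R2.Trunc.differentiable_H (R / 2)).comp
        ((differentiable_const _).mul differentiable_id))

/-- For every `R ≥ 10` the function `F_R` has four distinct nonreal zeros
`z, -z, conj z, -conj z`, with `Re z ≠ 0` and `Im z > π e^{2R}`. -/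
theorem result : ∀ R : ℝ, 10 ≤ R →
    (∃ z : ℂ, Real.pi * Real.exp (2 * R) < z.im ∧ z.re ≠ 0 ∧
      F R z = 0 ∧ F R (-z) = 0 ∧ F R (conj z) = 0 ∧ F R (-conj z) = 0) ∧
    (∃ S : Finset ℂ, S.card = 4 ∧ ∀ z ∈ S, F R z = 0 ∧ z.im ≠ 0) := by
  intro R hR
  have main : ∃ z : ℂ, Real.pi * Real.exp (2 * R) < z.im ∧ z.re ≠ 0 ∧
      F R z = 0 ∧ F R (-z) = 0 ∧ F R (conj z) = 0 ∧ F R (-conj z) = 0 := by
    obtain ⟨w, hw, hwim⟩ := Pool.Agent.H788R2.Trunc.main (R := R / 2) (by linarith)
    have hz : F R (w / 2) = 0 := by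
      rw [F_eq, mul_div_cancel₀ w two_ne_zero, hw, mul_zero]
    have him : Real.pi * Real.exp (2 * R) < (w / 2).im := by
      have h1 : (w / 2).im = w.im / 2 := by simp
      rw [h1]
      rw [show 4 * (R / 2) = 2 * R by ring] at hwim
      linarith
    refine ⟨w / 2, him, ?_, hz, by rw [F_neg, hz], by rw [F_conj, hz, map_zero],
      by rw [F_neg, F_conj, hz, map_zero]⟩
    intro hre
    apply F_imag_ne R (by linarith) (w / 2).im
    have : (((w / 2).im : ℝ) : ℂ) * Complex.I = w / 2 := by
      apply Complex.ext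
      · simp only [Complex.mul_re, Complex.ofReal_re, Complex.I_re, Complex.ofReal_im,
          Complex.I_im]
        rw [hre]; ring
      · simp only [Complex.mul_im, Complex.ofReal_re, Complex.I_im, Complex.ofReal_im,
          Complex.I_re]
        ring
    rw [this, hz]
  refine ⟨main, ?_⟩
  obtain ⟨z, him, hre, h1, h2, h3, h4⟩ := main
  have hpos : 0 < z.im := lt_trans (by positivity) him
  refine ⟨{z, -z, conj z, -conj z}, ?_, ?_⟩
  · have e1 : z ∉ ({-z, conj z, -conj z} : Finset ℂ) := by
      simp only [Finset.mem_insert, Finset.mem_singleton, not_or]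
      refine ⟨fun h => ?_, fun h => ?_, fun h => ?_⟩
      · have := congrArg Complex.im h
        simp at this; linarith
      · have := congrArg Complex.im h
        simp at this; linarith
      · have := congrArg Complex.re h
        simp at this
        exact hre (by linarith)
    have e2 : -z ∉ ({conj z, -conj z} : Finset ℂ) := by
      simp only [Finset.mem_insert, Finset.mem_singleton, not_or]
      refine ⟨fun h => ?_, fun h => ?_⟩
      · have := congrArg Complex.re h
        simp at this
        exact hre (by linarith)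
      · have := congrArg Complex.im h
        simp at this; linarith
    have e3 : conj z ∉ ({-conj z} : Finset ℂ) := by
      simp only [Finset.mem_singleton]
      intro h
      have := congrArg Complex.im h
      simp at this; linarith
    rw [Finset.card_insert_of_notMem e1, Finset.card_insert_of_notMem e2,
      Finset.card_insert_of_notMem e3, Finset.card_singleton]
  · intro y hy
    simp only [Finset.mem_insert, Finset.mem_singleton] at hy
    rcases hy with rfl | rfl | rfl | rfl
    · exact ⟨h1, hpos.ne'⟩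
    · exact ⟨h2, by simp; exact hpos.ne'⟩
    · exact ⟨h3, by simp; exact hpos.ne'⟩
    · exact ⟨h4, by simp; exact hpos.ne'⟩

end Pool.Agent.Results.MP_d99112_an.FourZeros
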